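import Pool.Agent.helper74.VN.SpecA
import Pool.Agent.helper31.VQ.VGD

/-!
# Project VN (MP_07c750_an), row NGD: the Dirichlet integral (copy of VGD)
-/

set_option autoImplicit false

open scoped MatrixGroups ContDiff Topology UpperHalfPlane ComplexConjugate ENNReal
open UpperHalfPlane MeasureTheory Filter Set

namespace Pool.Agent.VN

open Pool.Agent.RS Pool.Agent.VQ

noncomputable section

theorem NGD_pt {a r L : ℂ} {c R k : ℝ} (hR : 1 ≤ R) (hk : 0 < k) (hk1 : k ≤ 1 / 16) (hc : c ≤ 3 / k * R ^ 2) (hL : r = L - (c : ℂ) * a) :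
    inner ℝ a L ≤ 4 / k * R ^ 2 * ‖a‖ ^ 2 + (R ^ 2)⁻¹ * ‖r‖ ^ 2 := by
  have h1 : L = c • a + r := by
    rw [hL, Complex.real_smul]
    ring
  rw [h1, inner_add_right, inner_smul_right, real_inner_self_eq_norm_sq]
  have h2 : inner ℝ a r ≤ ‖a‖ * ‖r‖ := real_inner_le_norm a r
  have h3 : ‖a‖ * ‖r‖ ≤ R ^ 2 * ‖a‖ ^ 2 + (R ^ 2)⁻¹ * ‖r‖ ^ 2 := by
    have h4 : 0 ≤ (R * ‖a‖ - R⁻¹ * ‖r‖) ^ 2 := sq_nonneg _
    have h5 : (R * ‖a‖ - R⁻¹ * ‖r‖) ^ 2 = R ^ 2 * ‖a‖ ^ 2 + (R ^ 2)⁻¹ * ‖r‖ ^ 2 - 2 * (‖a‖ * ‖r‖) := by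
      have hR0 : R ≠ 0 := by linarith
      field_simp
      ring
    have h6 : 0 ≤ ‖a‖ * ‖r‖ := by positivity
    linarith
  have h7 : c * ‖a‖ ^ 2 ≤ 3 / k * R ^ 2 * ‖a‖ ^ 2 := mul_le_mul_of_nonneg_right hc (by positivity)
  have h8 : (1 : ℝ) ≤ 1 / k := by
    rw [le_div_iff₀ hk]
    linarith
  have h9 : R ^ 2 * ‖a‖ ^ 2 ≤ 1 / k * (R ^ 2 * ‖a‖ ^ 2) := by
    have h10 : 0 ≤ R ^ 2 * ‖a‖ ^ 2 := by positivity
    nlinarith
  have h11 : 4 / k * R ^ 2 * ‖a‖ ^ 2 = 3 / k * R ^ 2 * ‖a‖ ^ 2 + 1 / k * (R ^ 2 * ‖a‖ ^ 2) := by ring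
  rw [h11]
  linarith

theorem NGD_proof (hVLP : VQ.VLP_stmt) : NGD_stmt := by
  intro k hk hk1 Γ F hD
  constructor
  · intro f s hf hs0 hs
    have hc : Continuous fun z => ‖f z‖ ^ 2 := hf.cont.norm.pow 2
    have hi : IntegrableOn (fun z => ‖f z‖ ^ 2) F := VGD_int hD hf hc fun z hz => by
      rw [image_eq_zero_of_notMem_tsupport hz]
      simp
    exact VGD_main hD (fun z => ‖f z‖ ^ 2) hc (fun z => by positivity) (fun γ z => by rw [hf.inv]) hi hs0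
      (by linarith) (K := 1) zero_le_one (by linarith [Real.pi_lt_d2]) (fun g v => ‖f (g • cdi v)‖ ^ 2)
      (fun g v => by positivity) (fun g v _ => by rw [one_mul])
  · intro φ U s R E0 hφ hc hU hs0 hs hR hE
    have hG0 : ∀ z, 0 ≤ VGD_G φ z := fun z => by unfold VGD_G; positivity
    have i1 : IntegrableOn (VGD_G φ) F := VGD_int hD hφ (VGD_Gcont hc) fun z hz => (VGD_supp hc hz).2.1
    obtain ⟨c0, -, -, c3⟩ := VGD_cont hc
    have h1 := VGD_main hD (VGD_G φ) (VGD_Gcont hc) hG0 (VGD_Ginv hVLP hc hφ.inv) i1 hs0 (by linarith)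
      (K := 256 / 225) (by norm_num) (by linarith [Real.pi_lt_d2])
      (fun g v => ‖fderiv ℝ (fun w : ℂ => φ (g • cdi w)) v 1‖ ^ 2 +
        ‖fderiv ℝ (fun w : ℂ => φ (g • cdi w)) v Complex.I‖ ^ 2) (fun g v => by positivity) (fun g v hv => by
        show ‖fderiv ℝ (fun w : ℂ => φ (g • cdi w)) v 1‖ ^ 2 +
          ‖fderiv ℝ (fun w : ℂ => φ (g • cdi w)) v Complex.I‖ ^ 2 ≤ _
        rw [VGD_grad hVLP hc g (by linarith : ‖v‖ < 2)]
        obtain ⟨A, hA⟩ : ∃ A : ℝ, A = ‖fderiv ℝ (fun w : ℂ => φ (g • cdi w)) v 1‖ ^ 2 +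
          ‖fderiv ℝ (fun w : ℂ => φ (g • cdi w)) v Complex.I‖ ^ 2 := ⟨_, rfl⟩
        rw [← hA]
        have hA0 : 0 ≤ A := by rw [hA]; positivity
        have hv2 : ‖v‖ ^ 2 ≤ 1 / 4 := by
          have := norm_nonneg v
          nlinarith
        have h3 : 225 / 256 ≤ (1 - ‖v‖ ^ 2 / 4) ^ 2 := by nlinarith [sq_nonneg ‖v‖]
        nlinarith [mul_le_mul_of_nonneg_right h3 hA0])
    refine h1.trans (mul_le_mul_of_nonneg_left ?_ (by positivity))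
    rw [VGD_green hD hφ hc]
    obtain ⟨r, hr⟩ : ∃ r : ℍ → ℂ, r = fun z => QU.lap φ z - ((R ^ 2 * (U z + 2 * E0) : ℝ) : ℂ) * φ z := ⟨_, rfl⟩
    rw [← hr]
    have hrc : Continuous r := by
      rw [hr]
      exact c3.sub ((Complex.continuous_ofReal.comp (continuous_const.mul (hU.inv.1.add continuous_const))).mul c0)
    have hrs : ∀ z, z ∉ tsupport φ → r z = 0 := by
      intro z hz
      rw [hr]
      show QU.lap φ z - ((R ^ 2 * (U z + 2 * E0) : ℝ) : ℂ) * φ z = 0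
      rw [(VGD_supp hc hz).1, (VGD_supp hc hz).2.2]
      simp
    have i2 : IntegrableOn (fun z => inner ℝ (φ z) (QU.lap φ z) : ℍ → ℝ) F :=
      VGD_int hD hφ (c0.inner c3) fun z hz => by rw [(VGD_supp hc hz).1, inner_zero_left]
    have i3 : IntegrableOn (fun z => ‖φ z‖ ^ 2) F := VGD_int hD hφ (c0.norm.pow 2) fun z hz => by
      rw [(VGD_supp hc hz).1]; simp
    have i4 : IntegrableOn (fun z => ‖r z‖ ^ 2) F := VGD_int hD hφ (hrc.norm.pow 2) fun z hz => by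
      rw [hrs z hz]; simp
    unfold nn
    rw [← integral_const_mul, ← integral_const_mul, ← integral_add (i3.const_mul _) (i4.const_mul _)]
    refine setIntegral_mono i2 ((i3.const_mul _).add (i4.const_mul _)) fun z => ?_
    show inner ℝ (φ z) (QU.lap φ z) ≤ 4 / k * R ^ 2 * ‖φ z‖ ^ 2 + (R ^ 2)⁻¹ * ‖r z‖ ^ 2
    refine NGD_pt (c := R ^ 2 * (U z + 2 * E0)) hR hk hk1 ?_ (by rw [hr])
    have h4 := (hU.bd z).2
    have h5 := (abs_le.1 hE).2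
    have h6 : 0 ≤ R ^ 2 := sq_nonneg R
    have h7 : U z + 2 * E0 ≤ 3 / k := by
      have h8 : (16 : ℝ) ≤ 1 / k := by
        rw [le_div_iff₀ hk]
        linarith
      have h9 : 3 / k = 3 * (1 / k) := by ring
      rw [h9]
      linarith
    calc R ^ 2 * (U z + 2 * E0) ≤ R ^ 2 * (3 / k) := mul_le_mul_of_nonneg_left h7 h6
      _ = 3 / k * R ^ 2 := by ring

end

end Pool.Agent.VN
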