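import Pool.Agent.helper74.VN.SpecA
import Pool.Agent.helper39.VQ.VYA

/-!
# Project VN (MP_07c750_an), row NYA: algebra of the linear system of the Gaussian beam (copy of VYA)
-/

set_option autoImplicit false

open scoped MatrixGroups ContDiff Topology UpperHalfPlane ComplexConjugate ENNReal
open UpperHalfPlane MeasureTheory Filter Set

namespace Pool.Agent.VN

open Pool.Agent.RS Pool.Agent.VQ

noncomputable section

theorem NYA_proof (hNUB : NUB_stmt) : NYA_stmt := by
  intro Γ k B D hD E t g hE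
  have hsym : ∀ g, hess D.U g 0 1 = hess D.U g 1 0 := by
    obtain ⟨C, -, hC⟩ := hNUB k hD.pot.kpos.1
    exact fun g => ((hC Γ B D.U hD.pot).2.1 g).2.2.2.2
  have hY : ∀ t, VYA_HD (fun s => D.Y E s g)
      (D.P E t g + ((kap D.U E (D.fl E t g) : ℝ) : ℂ) • (JJ * D.Y E t g)) t := fun t => hD.dY E t g hE
  have hP : ∀ t, VYA_HD (fun s => D.P E s g)
      (KK D.U E (D.fl E t g) * D.Y E t g + ((kap D.U E (D.fl E t g) : ℝ) : ℂ) • (JJ * D.P E t g)) t :=
    fun t => hD.dP E t g hE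
  have h1 : ∀ t, (D.Y E t g).transpose * D.P E t g = (D.P E t g).transpose * D.Y E t g := by
    intro t
    have hc := VYA_const (A := fun s => (D.Y E s g).transpose * D.P E s g - (D.P E s g).transpose * D.Y E s g)
      (fun s => by
        have h := VYA_sub (VYA_mul (VYA_tr (hY s)) (hP s)) (VYA_mul (VYA_tr (hP s)) (hY s))
        rwa [VYA_alg VYA_J (VYA_K (hsym _))] at h) t
    simp only [hD.Y0, hD.P0, Matrix.transpose_one, Matrix.transpose_smul, Matrix.one_mul, Matrix.mul_one,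
      sub_self] at hc
    exact sub_eq_zero.1 hc
  have h2 : ∀ t, (D.Y E t g).conjTranspose * D.P E t g - (D.P E t g).conjTranspose * D.Y E t g =
      (2 * Complex.I) • (1 : Matrix (Fin 2) (Fin 2) ℂ) := by
    intro t
    have hc := VYA_const (A := fun s => (D.Y E s g).conjTranspose * D.P E s g -
        (D.P E s g).conjTranspose * D.Y E s g)
      (fun s => by
        have h := VYA_sub (VYA_mul (VYA_ct (hY s)) (hP s)) (VYA_mul (VYA_ct (hP s)) (hY s))
        rwa [VYA_algc (Complex.conj_ofReal _) VYA_Jc (VYA_Kc (hsym _))] at h) t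
    simp only [hD.Y0, hD.P0, Matrix.conjTranspose_one, Matrix.conjTranspose_smul, Matrix.one_mul,
      Matrix.mul_one] at hc
    rw [hc, ← sub_smul]
    congr 1
    show Complex.I - (starRingEnd ℂ) Complex.I = _
    rw [Complex.conj_I]
    ring
  have hdet : ∀ t, (D.Y E t g).det ≠ 0 := fun t => VYA_det (h2 t)
  obtain ⟨h4, h5, h6⟩ := VYA_lin (h1 t) (h2 t)
  refine ⟨hdet t, h1 t, h2 t, h4, ?_, h5, h6⟩
  -- the amplitude
  have hda : ∀ t, HasDerivAt (fun s => D.a E s g ^ 2 * (D.Y E s g).det) 0 t := by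
    intro t
    have e1 : (fun s => D.a E s g ^ 2 * (D.Y E s g).det) = fun s => D.a E s g ^ 2 *
        (D.Y E s g 0 0 * D.Y E s g 1 1 - D.Y E s g 0 1 * D.Y E s g 1 0) := by
      funext s
      rw [Matrix.det_fin_two]
    rw [e1]
    have hP' : D.P E t g = D.M E t g * D.Y E t g := by
      unfold Dyn.M
      rw [Matrix.mul_assoc, Matrix.nonsing_inv_mul _ (isUnit_iff_ne_zero.2 (hdet t)), Matrix.mul_one]
    have hYd := hY t
    set κ : ℂ := ((kap D.U E (D.fl E t g) : ℝ) : ℂ)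
    set Y' : Matrix (Fin 2) (Fin 2) ℂ := D.P E t g + κ • (JJ * D.Y E t g) with hY'
    have hda := hD.da E t g hE
    have d1 : HasDerivAt (fun s => D.Y E s g 0 0 * D.Y E s g 1 1)
        (Y' 0 0 * D.Y E t g 1 1 + D.Y E t g 0 0 * Y' 1 1) t := (hYd 0 0).mul (hYd 1 1)
    have d2 : HasDerivAt (fun s => D.Y E s g 0 1 * D.Y E s g 1 0)
        (Y' 0 1 * D.Y E t g 1 0 + D.Y E t g 0 1 * Y' 1 0) t := (hYd 0 1).mul (hYd 1 0)
    have d3 : HasDerivAt (fun s => D.Y E s g 0 0 * D.Y E s g 1 1 - D.Y E s g 0 1 * D.Y E s g 1 0)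
        ((Y' 0 0 * D.Y E t g 1 1 + D.Y E t g 0 0 * Y' 1 1) -
          (Y' 0 1 * D.Y E t g 1 0 + D.Y E t g 0 1 * Y' 1 0)) t := d1.sub d2
    have d4 : HasDerivAt (fun s => D.a E s g ^ 2)
        (2 * D.a E t g ^ (2 - 1) * (-(1 / 2) * Matrix.trace (D.M E t g) * D.a E t g)) t := by
      have := hda.pow 2
      exact_mod_cast this
    have hd : HasDerivAt (fun s => D.a E s g ^ 2 *
        (D.Y E s g 0 0 * D.Y E s g 1 1 - D.Y E s g 0 1 * D.Y E s g 1 0))
        ((2 * D.a E t g ^ (2 - 1) * (-(1 / 2) * Matrix.trace (D.M E t g) * D.a E t g)) *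
          (D.Y E t g 0 0 * D.Y E t g 1 1 - D.Y E t g 0 1 * D.Y E t g 1 0) + D.a E t g ^ 2 *
          ((Y' 0 0 * D.Y E t g 1 1 + D.Y E t g 0 0 * Y' 1 1) -
          (Y' 0 1 * D.Y E t g 1 0 + D.Y E t g 0 1 * Y' 1 0))) t := d4.mul d3
    refine hd.congr_deriv ?_
    rw [hY', hP']
    set M := D.M E t g
    set Y := D.Y E t g
    simp only [Matrix.add_apply, Matrix.smul_apply, Matrix.mul_apply, Fin.sum_univ_two, smul_eq_mul,
      Matrix.trace_fin_two, JJ, Matrix.of_apply, Matrix.cons_val_zero, Matrix.cons_val_one,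
      Matrix.cons_val', Matrix.empty_val', Matrix.cons_val_fin_one]
    ring
  have hc := is_const_of_deriv_eq_zero (f := fun s => D.a E s g ^ 2 * (D.Y E s g).det)
    (fun s => (hda s).differentiableAt) (fun s => (hda s).deriv) t 0
  simp only [hD.a0, hD.Y0, Matrix.det_one, one_pow, mul_one] at hc
  exact hc

end

end Pool.Agent.VN
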