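import Pool.Agent.helper74.VN.SpecA
import Pool.Agent.helper29.VQ.VYB

/-!
# Project VN (MP_07c750_an), row NYB: bounds for the linear system of the beams (copy of VYB)
-/

set_option autoImplicit false

open scoped MatrixGroups ContDiff Topology UpperHalfPlane ComplexConjugate ENNReal
open UpperHalfPlane MeasureTheory Filter Set

namespace Pool.Agent.VN

open Pool.Agent.RS Pool.Agent.VQ

lemma NYB_YP (Γ : Subgroup SL(2, ℝ)) (k : ℝ) (B : ℕ → ℝ) (D : Dyn)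
    (hD : OKN Γ k B D) (c : ℝ) (hc1 : 1 ≤ c) (hhe : ∀ (g : SL(2, ℝ)) (i j : Fin 2), |hess D.U g i j| ≤ c)
    (hrho : ∀ (E : ℝ) (g : SL(2, ℝ)), |E| ≤ k → 0 ≤ rho D.U E g ∧ rho D.U E g ≤ c)
    (hkap : ∀ (E : ℝ) (g : SL(2, ℝ)), |E| ≤ k → |kap D.U E g| ≤ c) (E t : ℝ) (g : SL(2, ℝ)) (hE : |E| ≤ k) :
    ∀ i j, ‖D.Y E t g i j‖ ≤ Real.exp (4 * c ^ 2 * |t|) ∧ ‖D.P E t g i j‖ ≤ Real.exp (4 * c ^ 2 * |t|) := by
  have hcc : c ≤ c ^ 2 := by nlinarith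
  let f : ℝ → (Fin 2 → Fin 2 → ℂ) × (Fin 2 → Fin 2 → ℂ) := fun s =>
    (fun i j => D.Y E s g i j, fun i j => D.P E s g i j)
  let f' : ℝ → (Fin 2 → Fin 2 → ℂ) × (Fin 2 → Fin 2 → ℂ) := fun s =>
    (fun i j => (D.P E s g + ((kap D.U E (D.fl E s g) : ℝ) : ℂ) • (JJ * D.Y E s g)) i j,
      fun i j => (KK D.U E (D.fl E s g) * D.Y E s g +
        ((kap D.U E (D.fl E s g) : ℝ) : ℂ) • (JJ * D.P E s g)) i j)
  have hf : ∀ s, HasDerivAt f (f' s) s := by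
    intro s
    refine HasDerivAt.prodMk ?_ ?_
    · exact hasDerivAt_pi.2 fun i => hasDerivAt_pi.2 fun j => hD.dY E s g hE i j
    · exact hasDerivAt_pi.2 fun i => hasDerivAt_pi.2 fun j => hD.dP E s g hE i j
  have hY : ∀ s i j, ‖D.Y E s g i j‖ ≤ ‖f s‖ := fun s i j =>
    ((norm_le_pi_norm (D.Y E s g i) j).trans (norm_le_pi_norm (fun i j => D.Y E s g i j) i)).trans
      (norm_fst_le (f s))
  have hP : ∀ s i j, ‖D.P E s g i j‖ ≤ ‖f s‖ := fun s i j =>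
    ((norm_le_pi_norm (D.P E s g i) j).trans (norm_le_pi_norm (fun i j => D.P E s g i j) i)).trans
      (norm_snd_le (f s))
  have hb : ∀ s, ‖f' s‖ ≤ 4 * c ^ 2 * ‖f s‖ := by
    intro s
    obtain ⟨h1, h2⟩ := hrho E (D.fl E s g) hE
    have h4 := hkap E (D.fl E s g) hE
    have h5 := hhe (D.fl E s g)
    have hk : ‖((kap D.U E (D.fl E s g) : ℝ) : ℂ)‖ ≤ c := by
      rw [Complex.norm_real, Real.norm_eq_abs]
      exact h4
    have hJ : ∀ (X : Matrix (Fin 2) (Fin 2) ℂ), (∀ i j, ‖X i j‖ ≤ ‖f s‖) →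
        ∀ i j, ‖(JJ * X) i j‖ ≤ ‖f s‖ := by
      intro X hX i j
      fin_cases i
      · simpa [JJ, Matrix.mul_apply, Fin.sum_univ_two] using hX 1 j
      · simpa [JJ, Matrix.mul_apply, Fin.sum_univ_two] using hX 0 j
    have hKK : ∀ i k, ‖KK D.U E (D.fl E s g) i k‖ ≤ 3 / 2 * c ^ 2 := by
      intro i k
      rw [KK, Complex.norm_real, Real.norm_eq_abs]
      have h6 := abs_le.mp (h5 i k)
      have h7 : 0 ≤ rho D.U E (D.fl E s g) ^ 2 := sq_nonneg _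
      have h8 : rho D.U E (D.fl E s g) ^ 2 ≤ c ^ 2 := pow_le_pow_left₀ h1 h2 2
      rw [abs_le]
      split_ifs <;> constructor <;> linarith [h6.1, h6.2]
    have hf0 : 0 ≤ ‖f s‖ := norm_nonneg _
    have hfc : c * ‖f s‖ ≤ c ^ 2 * ‖f s‖ := mul_le_mul_of_nonneg_right hcc hf0
    have hf1 : ‖f s‖ ≤ c ^ 2 * ‖f s‖ := by nlinarith
    have e1 : ∀ i j, ‖(D.P E s g + ((kap D.U E (D.fl E s g) : ℝ) : ℂ) • (JJ * D.Y E s g)) i j‖ ≤
        4 * c ^ 2 * ‖f s‖ := by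
      intro i j
      rw [Matrix.add_apply, Matrix.smul_apply, smul_eq_mul]
      have h6 := hP s i j
      have h7 := hJ (D.Y E s g) (hY s) i j
      calc ‖D.P E s g i j + ((kap D.U E (D.fl E s g) : ℝ) : ℂ) * (JJ * D.Y E s g) i j‖
          ≤ ‖D.P E s g i j‖ + ‖((kap D.U E (D.fl E s g) : ℝ) : ℂ)‖ * ‖(JJ * D.Y E s g) i j‖ := by
            rw [← norm_mul]
            exact norm_add_le _ _
        _ ≤ ‖f s‖ + c * ‖f s‖ := add_le_add h6 (mul_le_mul hk h7 (norm_nonneg _) (by linarith))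
        _ ≤ 4 * c ^ 2 * ‖f s‖ := by nlinarith
    have e2 : ∀ i j, ‖(KK D.U E (D.fl E s g) * D.Y E s g +
        ((kap D.U E (D.fl E s g) : ℝ) : ℂ) • (JJ * D.P E s g)) i j‖ ≤ 4 * c ^ 2 * ‖f s‖ := by
      intro i j
      rw [Matrix.add_apply, Matrix.smul_apply, smul_eq_mul]
      have h7 := hJ (D.P E s g) (hP s) i j
      have h8 : ‖(KK D.U E (D.fl E s g) * D.Y E s g) i j‖ ≤ 3 * c ^ 2 * ‖f s‖ := by
        rw [Matrix.mul_apply, Fin.sum_univ_two]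
        calc ‖KK D.U E (D.fl E s g) i 0 * D.Y E s g 0 j + KK D.U E (D.fl E s g) i 1 * D.Y E s g 1 j‖
            ≤ ‖KK D.U E (D.fl E s g) i 0‖ * ‖D.Y E s g 0 j‖ +
              ‖KK D.U E (D.fl E s g) i 1‖ * ‖D.Y E s g 1 j‖ := by
              rw [← norm_mul, ← norm_mul]
              exact norm_add_le _ _
          _ ≤ 3 / 2 * c ^ 2 * ‖f s‖ + 3 / 2 * c ^ 2 * ‖f s‖ := add_le_add
              (mul_le_mul (hKK i 0) (hY s 0 j) (norm_nonneg _) (by positivity))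
              (mul_le_mul (hKK i 1) (hY s 1 j) (norm_nonneg _) (by positivity))
          _ = 3 * c ^ 2 * ‖f s‖ := by ring
      calc ‖(KK D.U E (D.fl E s g) * D.Y E s g) i j +
            ((kap D.U E (D.fl E s g) : ℝ) : ℂ) * (JJ * D.P E s g) i j‖
          ≤ ‖(KK D.U E (D.fl E s g) * D.Y E s g) i j‖ +
            ‖((kap D.U E (D.fl E s g) : ℝ) : ℂ)‖ * ‖(JJ * D.P E s g) i j‖ := by
            rw [← norm_mul]
            exact norm_add_le _ _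
        _ ≤ 3 * c ^ 2 * ‖f s‖ + c * ‖f s‖ := add_le_add h8 (mul_le_mul hk h7 (norm_nonneg _) (by linarith))
        _ ≤ 4 * c ^ 2 * ‖f s‖ := by linarith
    have h40 : 0 ≤ 4 * c ^ 2 * ‖f s‖ := by positivity
    rw [Prod.norm_def]
    refine max_le ?_ ?_
    · exact (pi_norm_le_iff_of_nonneg h40).2 fun i => (pi_norm_le_iff_of_nonneg h40).2 fun j => e1 i j
    · exact (pi_norm_le_iff_of_nonneg h40).2 fun i => (pi_norm_le_iff_of_nonneg h40).2 fun j => e2 i j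
  have h0 : ‖f 0‖ ≤ 1 := by
    rw [Prod.norm_def]
    refine max_le ?_ ?_
    · refine (pi_norm_le_iff_of_nonneg zero_le_one).2 fun i =>
        (pi_norm_le_iff_of_nonneg zero_le_one).2 fun j => ?_
      show ‖D.Y E 0 g i j‖ ≤ 1
      rw [hD.Y0, Matrix.one_apply]
      split_ifs <;> simp
    · refine (pi_norm_le_iff_of_nonneg zero_le_one).2 fun i =>
        (pi_norm_le_iff_of_nonneg zero_le_one).2 fun j => ?_
      show ‖D.P E 0 g i j‖ ≤ 1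
      rw [hD.P0, Matrix.smul_apply, Matrix.one_apply]
      split_ifs <;> simp
  have hg := VYB_gron f f' (4 * c ^ 2) hf hb t
  have hg' : ‖f t‖ ≤ Real.exp (4 * c ^ 2 * |t|) :=
    hg.trans (by
      calc ‖f 0‖ * Real.exp (4 * c ^ 2 * |t|) ≤ 1 * Real.exp (4 * c ^ 2 * |t|) :=
            mul_le_mul_of_nonneg_right h0 (Real.exp_pos _).le
        _ = Real.exp (4 * c ^ 2 * |t|) := one_mul _)
  exact fun i j => ⟨(hY t i j).trans hg', (hP t i j).trans hg'⟩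

theorem NYB_proof (hNYA : NYA_stmt) (hNUB : NUB_stmt) : NYB_stmt := by
  intro k hkk
  obtain ⟨c, hc1, hcB⟩ := hNUB k hkk
  refine ⟨8 * c ^ 2, by nlinarith, ?_⟩
  intro Γ B D hD E t g hE
  obtain ⟨-, hU, hr, -⟩ := hcB Γ B D.U hD.pot
  obtain ⟨hdet, -, h3, -, ha, -, hq⟩ := hNYA Γ k B D hD E t g hE
  have hcpos : 0 < c := by linarith
  have hcc : 1 ≤ c ^ 2 := by nlinarith
  have hrho : ∀ (E : ℝ) (g : SL(2, ℝ)), |E| ≤ k → 0 ≤ rho D.U E g ∧ rho D.U E g ≤ c := fun E g hE =>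
    ⟨(div_nonneg zero_le_one hcpos.le).trans (hr E g hE).1, (hr E g hE).2.1⟩
  have hYP := NYB_YP Γ k B D hD c hc1 (fun g => (hU g).2.2.2.1) hrho (fun E g hE => (hr E g hE).2.2.2.1) E t g hE
  set Y := D.Y E t g with hYdef
  set P := D.P E t g with hPdef
  set e := Real.exp (4 * c ^ 2 * |t|) with hedef
  have ht := abs_nonneg t
  have he1 : 1 ≤ e := by
    rw [hedef]
    exact Real.one_le_exp (by positivity)
  have he2 : Real.exp (8 * c ^ 2 * |t|) = e ^ 2 := by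
    rw [hedef, ← Real.exp_nat_mul]
    congr 1
    push_cast
    ring
  have hee : e ≤ e ^ 2 := by nlinarith
  have hes : 8 * e ^ 2 ≤ 8 * c ^ 2 * e ^ 2 := by nlinarith [sq_nonneg e]
  have hu : IsUnit Y.det := isUnit_iff_ne_zero.mpr hdet
  have hYX : Y * Y⁻¹ = 1 := Matrix.mul_nonsing_inv _ hu
  have hX : ∀ i j, ‖Y⁻¹ i j‖ ≤ 2 * e := by
    intro i j
    have h := VYB_inv Y P Y⁻¹ e (by linarith) (fun i j => (hYP i j).2) hYX h3 j
    fin_cases i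
    · exact h.1
    · exact h.2
  rw [he2]
  refine ⟨?_, ?_, ?_, ?_⟩
  · intro i j
    refine ⟨(hYP i j).1.trans (by linarith), (hYP i j).2.trans (by linarith),
      (hX i j).trans (by linarith), ?_⟩
    show ‖(P * Y⁻¹) i j‖ ≤ 8 * c ^ 2 * e ^ 2
    refine le_trans ?_ hes
    rw [Matrix.mul_apply, Fin.sum_univ_two]
    calc ‖P i 0 * Y⁻¹ 0 j + P i 1 * Y⁻¹ 1 j‖ ≤ ‖P i 0‖ * ‖Y⁻¹ 0 j‖ + ‖P i 1‖ * ‖Y⁻¹ 1 j‖ := by
          rw [← norm_mul, ← norm_mul]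
          exact norm_add_le _ _
      _ ≤ e * (2 * e) + e * (2 * e) := add_le_add
          (mul_le_mul (hYP i 0).2 (hX 0 j) (norm_nonneg _) (by linarith))
          (mul_le_mul (hYP i 1).2 (hX 1 j) (norm_nonneg _) (by linarith))
      _ ≤ 8 * e ^ 2 := by nlinarith
  · have h1 : Y.det * (Y⁻¹).det = 1 := by rw [← Matrix.det_mul, hYX, Matrix.det_one]
    have h2 : ‖D.a E t g‖ ^ 2 = ‖(Y⁻¹).det‖ := by
      have h4 : D.a E t g ^ 2 = (Y⁻¹).det := by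
        calc D.a E t g ^ 2 = D.a E t g ^ 2 * (Y.det * (Y⁻¹).det) := by rw [h1, mul_one]
          _ = (D.a E t g ^ 2 * Y.det) * (Y⁻¹).det := by ring
          _ = (Y⁻¹).det := by rw [ha, one_mul]
      rw [← norm_pow, h4]
    have h5 : ‖(Y⁻¹).det‖ ≤ 8 * e ^ 2 := by
      rw [Matrix.det_fin_two]
      calc ‖Y⁻¹ 0 0 * Y⁻¹ 1 1 - Y⁻¹ 0 1 * Y⁻¹ 1 0‖ ≤ ‖Y⁻¹ 0 0‖ * ‖Y⁻¹ 1 1‖ + ‖Y⁻¹ 0 1‖ * ‖Y⁻¹ 1 0‖ := by
            rw [← norm_mul, ← norm_mul]
            exact norm_sub_le _ _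
        _ ≤ (2 * e) * (2 * e) + (2 * e) * (2 * e) := add_le_add
            (mul_le_mul (hX 0 0) (hX 1 1) (norm_nonneg _) (by linarith))
            (mul_le_mul (hX 0 1) (hX 1 0) (norm_nonneg _) (by linarith))
        _ = 8 * e ^ 2 := by ring
    rw [← h2] at h5
    refine le_trans ?_ hes
    refine le_of_sq_le_sq (h5.trans ?_) (by positivity)
    have h6 : 1 ≤ e ^ 2 := by nlinarith
    nlinarith
  · intro v
    rw [hq v]
    refine le_trans ?_ (mul_le_mul_of_nonneg_right hes (by positivity))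
    set w := (Y⁻¹).mulVec ![(v.re : ℂ), (v.im : ℂ)] with hw
    have h1 : Y.mulVec w = ![(v.re : ℂ), (v.im : ℂ)] := by
      rw [hw, Matrix.mulVec_mulVec, hYX, Matrix.one_mulVec]
    have h2 : ∀ i, ‖(Y.mulVec w) i‖ ≤ e * (‖w 0‖ + ‖w 1‖) := by
      intro i
      have h3 : (Y.mulVec w) i = Y i 0 * w 0 + Y i 1 * w 1 := by
        simp [Matrix.mulVec, dotProduct, Fin.sum_univ_two]
      rw [h3]
      calc ‖Y i 0 * w 0 + Y i 1 * w 1‖ ≤ ‖Y i 0‖ * ‖w 0‖ + ‖Y i 1‖ * ‖w 1‖ := by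
            rw [← norm_mul, ← norm_mul]
            exact norm_add_le _ _
        _ ≤ e * ‖w 0‖ + e * ‖w 1‖ := add_le_add
            (mul_le_mul_of_nonneg_right (hYP i 0).1 (norm_nonneg _))
            (mul_le_mul_of_nonneg_right (hYP i 1).1 (norm_nonneg _))
        _ = e * (‖w 0‖ + ‖w 1‖) := by ring
    have h3 : |v.re| ≤ e * (‖w 0‖ + ‖w 1‖) := by
      have := h2 0
      rw [h1] at this
      simpa using this
    have h4 : |v.im| ≤ e * (‖w 0‖ + ‖w 1‖) := by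
      have := h2 1
      rw [h1] at this
      simpa using this
    have h5 : ‖v‖ ^ 2 = |v.re| ^ 2 + |v.im| ^ 2 := by
      rw [sq_abs, sq_abs, ← Complex.normSq_eq_norm_sq, Complex.normSq_apply]
      ring
    rw [h5]
    have h6 : |v.re| ^ 2 ≤ (e * (‖w 0‖ + ‖w 1‖)) ^ 2 := pow_le_pow_left₀ (abs_nonneg _) h3 2
    have h7 : |v.im| ^ 2 ≤ (e * (‖w 0‖ + ‖w 1‖)) ^ 2 := pow_le_pow_left₀ (abs_nonneg _) h4 2
    have h8 : (‖w 0‖ + ‖w 1‖) ^ 2 ≤ 2 * (‖w 0‖ ^ 2 + ‖w 1‖ ^ 2) := by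
      nlinarith [sq_nonneg (‖w 0‖ - ‖w 1‖)]
    have h9 : (e * (‖w 0‖ + ‖w 1‖)) ^ 2 ≤ e ^ 2 * (2 * (‖w 0‖ ^ 2 + ‖w 1‖ ^ 2)) := by
      rw [mul_pow]
      exact mul_le_mul_of_nonneg_left h8 (sq_nonneg e)
    have h10 : 0 ≤ e ^ 2 * (‖w 0‖ ^ 2 + ‖w 1‖ ^ 2) := by positivity
    nlinarith
  · have h1 := Convex.norm_image_sub_le_of_norm_hasDerivWithin_le (f := fun s => D.S E s g)
      (f' := fun s => (rho D.U E (D.fl E s g) ^ 2 + D.U (D.fl E s g • I)) / 2) (C := 8 * c ^ 2) (s := Set.univ)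
      (x := 0) (y := t) (fun s _ => (hD.dS E s g hE).hasDerivWithinAt) ?_ convex_univ (mem_univ _) (mem_univ _)
    · rw [hD.S0, sub_zero, sub_zero] at h1
      simpa [Real.norm_eq_abs] using h1
    · intro s _
      obtain ⟨h2, h3⟩ := hrho E (D.fl E s g) hE
      obtain ⟨h4, -⟩ := hU (D.fl E s g)
      have h5 := abs_le.mp h4
      rw [Real.norm_eq_abs, abs_le]
      have h6 : rho D.U E (D.fl E s g) ^ 2 ≤ c ^ 2 := pow_le_pow_left₀ h2 h3 2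
      have h7 : 0 ≤ rho D.U E (D.fl E s g) ^ 2 := sq_nonneg _
      have h8 : c ≤ c ^ 2 := by nlinarith
      constructor <;> linarith [h5.1, h5.2]

end Pool.Agent.VN
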