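import Pool.Agent.helper74.VN.SpecA
import Pool.Agent.helper67.VQ.VQS

/-!
# Project VN (MP_07c750_an), row NQS: regularity of the packets and of the coefficients (copy of VQS)
-/

set_option autoImplicit false

open scoped MatrixGroups ContDiff Topology UpperHalfPlane ComplexConjugate ENNReal
open UpperHalfPlane MeasureTheory Filter Set

namespace Pool.Agent.VN

open Pool.Agent.RS Pool.Agent.VQ

noncomputable section

theorem NQS_proof (hVBR : VQ.VBR_stmt) (hVCD : VQ.VCD_stmt) (hVDM : VQ.VDM_stmt) : NQS_stmt := by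
  intro ch ζ k hch _ hζ hζ1
  obtain ⟨R0, hR0, hV⟩ := hVBR ch ζ hch hζ hζ1
  obtain ⟨-, -, -, -, -, -, hcd2, hcdc, -⟩ := hVCD
  refine ⟨max R0 16, hR0.trans (le_max_left _ _), fun R Γ F U hR hD hU => ?_⟩
  have hR16 : 16 ≤ R := (le_max_right _ _).trans hR
  have hRpos : 0 < R := by linarith
  obtain ⟨hbs, hbsupp, hbb, hRζ, -, -, -, -, hcR⟩ := hV R ((le_max_left _ _).trans hR)
  have hRζ0 : 0 < R ^ (-(1 / 2) + ζ) := Real.rpow_pos_of_pos hRpos _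
  have hb1 : ∀ v, b0 ch ζ R v ≤ 1 := fun v => (hbb v).2.trans (by
    rw [Real.exp_le_one_iff, neg_nonpos]
    positivity)
  have hcR0 : 0 ≤ cR ch ζ R := Real.sqrt_nonneg _
  have hbd : ∀ p z, ‖Gp U ch ζ R p z‖ ≤ R ^ (3 / 2 : ℝ) := by
    intro p z
    rw [VQS_norm p z (hbb _).1]
    calc cR ch ζ R * b0 ch ζ R (cd (p.1⁻¹ • z)) ≤ R ^ (3 / 2 : ℝ) * 1 := mul_le_mul hcR (hb1 _) (hbb _).1 (hcR0.trans hcR)
      _ = R ^ (3 / 2 : ℝ) := mul_one _
  have hsupp : ∀ p z, Gp U ch ζ R p z ≠ 0 → dist (p.1 • I : ℍ) z ≤ 2 * R ^ (-(1 / 2) + ζ) := by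
    intro p z h0
    have h1 : b0 ch ζ R (cd (p.1⁻¹ • z)) ≠ 0 := by
      intro h1
      apply h0
      unfold Gp
      rw [h1, mul_zero, Complex.ofReal_zero, zero_mul]
    have h2 := hbsupp _ h1
    have h3 := hcd2 (p.1⁻¹ • z) (by linarith)
    have h4 : dist (p.1 • I : ℍ) z = dist (p.1⁻¹ • z) I := by
      rw [dist_comm, ← dist_smul p.1 (p.1⁻¹ • z) I, smul_inv_smul]
    rw [h4]
    linarith
  have hc := VQS_cont hcdc hU.inv.1 hbs.continuous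
  have he := fun (γ : Γ) p z => VQS_eqv hU.inv (ch := ch) (ζ := ζ) (R := R) γ p z
  have hG : VQS_G Γ (R ^ (3 / 2 : ℝ)) (Gp U ch ζ R) := ⟨hc, hbd, fun p z h => (hsupp p z h).trans (by linarith), he⟩
  have hW : MeasurableSet (Wi 2 R) := measurableSet_Icc
  have hW1 : Wi 2 R ⊆ Icc (-1) 1 := by
    have h1 : R ^ (-(1 / 4) : ℝ) ≤ 1 / 2 := by
      have h2 : R ^ (-(1 / 4) : ℝ) ≤ (16 : ℝ) ^ (-(1 / 4) : ℝ) := Real.rpow_le_rpow_of_nonpos (by norm_num) hR16 (by norm_num)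
      have h3 : (16 : ℝ) ^ (-(1 / 4) : ℝ) = 1 / 2 := by
        rw [show (16 : ℝ) = 2 ^ (4 : ℝ) by norm_num, ← Real.rpow_mul (by norm_num), show (4 : ℝ) * -(1 / 4) = -1 by norm_num, Real.rpow_neg_one]
        norm_num
      linarith
    refine Icc_subset_Icc ?_ ?_
    · linarith
    · linarith
  exact ⟨hc, fun p z => ⟨hbd p z, hsupp p z⟩, he, fun φ hφ => VQS_Q hVDM hD hG hφ, fun v hv => VQS_S hVDM hD hW hW1 hG hv,
    fun φ v hφ hv => VQS_adj hVDM hD hW hW1 hG hφ hv⟩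

end

end Pool.Agent.VN
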